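import Mathlib
import Pool.Agent.Helper66.GBVDefs
import Pool.Agent.Helper66.GBVProof

set_option autoImplicit false

open Filter Finset Pool.Agent.Helper66.GBV

namespace Pool.Agent.Results.MP_b91a69_an.InclusionCriterion

/-- **Characterisation of the inclusion `ΓBV ⊂ ΛBV_c`.** For `Λ`-sequences `Γ = (g i)` and
`Λ = (l i)` and a compact interval `[a, b]`, every function of bounded `Γ`-variation is
continuous in `Λ`-variation if and only if for every `ε > 0` there is `k ≥ 1` with
`∑_{i < k n} 1 / l i ≤ ε k ∑_{i < n} 1 / g i` for all sufficiently large `n`. -/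
theorem result (a b : ℝ) (hab : a < b) (g l : ℕ → ℝ) (hg : IsLambdaSeq g) (hl : IsLambdaSeq l) :
    BV g a b ⊆ BVc l a b ↔
      ∀ ε : ℝ, 0 < ε → ∃ k : ℕ, 0 < k ∧ ∀ᶠ n : ℕ in atTop,
        ∑ i ∈ range (k * n), 1 / l i ≤ ε * (k * ∑ i ∈ range n, 1 / g i) :=
  main a b hab g l hg hl

end Pool.Agent.Results.MP_b91a69_an.InclusionCriterion
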